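import Mathlib
import Pool.Agent.H59.L.S8.Y506.RG.Stm

/-!
PROJECT RG, parts EXPD and PSI: exponential decay of one-dimensional log-concave functions and
growth of the other factor.
-/

set_option autoImplicit false

open MeasureTheory Set Filter Topology
open scoped ENNReal
open Pool.Agent.Y506.RG

namespace Pool.Agent.Y950.RG

lemma log_form {a b m t : ℝ} (ha : 0 < a) (hb : 0 < b) (h : a ^ (1 - t) * b ^ t ≤ m) :
    (1 - t) * Real.log a + t * Real.log b ≤ Real.log m := by
  have h1 : 0 < a ^ (1 - t) := Real.rpow_pos_of_pos ha _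
  have h2 : 0 < b ^ t := Real.rpow_pos_of_pos hb _
  have := Real.log_le_log (mul_pos h1 h2) h
  rwa [Real.log_mul h1.ne' h2.ne', Real.log_rpow ha, Real.log_rpow hb] at this

lemma real_lc {P : ℝ → ℝ≥0∞} (hfin : ∀ u, P u ≠ ∞)
    (h : ∀ x y t : ℝ, 0 < t → t < 1 → P x ^ (1 - t) * P y ^ t ≤ P ((1 - t) * x + t * y))
    (x y t : ℝ) (h0 : 0 < t) (h1 : t < 1) :
    (P x).toReal ^ (1 - t) * (P y).toReal ^ t ≤ (P ((1 - t) * x + t * y)).toReal := by
  rw [ENNReal.toReal_rpow, ENNReal.toReal_rpow, ← ENNReal.toReal_mul]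
  exact ENNReal.toReal_mono (hfin _) (h x y t h0 h1)

lemma expd_right {c C : ℝ} (hc : 0 < c) (hC : 0 < C) (P : ℝ → ℝ≥0∞)
    (hlc : ∀ x y t : ℝ, 0 < t → t < 1 → P x ^ (1 - t) * P y ^ t ≤ P ((1 - t) * x + t * y))
    (h0 : ENNReal.ofReal c ≤ P 0) (hP : ∀ u, P u ≤ ENNReal.ofReal C) (hm : ∫⁻ u, P u ≤ 1)
    (u : ℝ) (hu : 0 ≤ u) :
    P u ≤ ENNReal.ofReal (C * Real.exp 1 * Real.exp (-u / (2 * Real.exp 1 / c))) := by
  have he := Real.exp_pos 1
  set L := 2 * Real.exp 1 / c with hL
  have hLpos : 0 < L := by positivity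
  have hfin : ∀ u, P u ≠ ∞ := fun u => ne_top_of_le_ne_top ENNReal.ofReal_ne_top (hP u)
  have hex : ∃ u1 : ℝ, 0 < u1 ∧ u1 ≤ L ∧ P u1 ≤ ENNReal.ofReal (c / Real.exp 1) := by
    by_contra hcon
    push Not at hcon
    have h2 : ∫⁻ u, (Ioc 0 L).indicator (fun _ => ENNReal.ofReal (c / Real.exp 1)) u ≤ 1 := by
      refine le_trans (lintegral_mono ?_) hm
      intro v
      by_cases hv : v ∈ Ioc 0 L
      · rw [Set.indicator_of_mem hv]
        exact (hcon v hv.1 hv.2).le
      · rw [Set.indicator_of_notMem hv]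
        exact zero_le
    rw [lintegral_indicator_const measurableSet_Ioc, Real.volume_Ioc, sub_zero,
      ← ENNReal.ofReal_mul (by positivity), ENNReal.ofReal_le_one] at h2
    have : c / Real.exp 1 * L = 2 := by
      rw [hL]; field_simp
    linarith
  obtain ⟨u1, hu1, hu1L, hPu1⟩ := hex
  have hm1 : (P u1).toReal ≤ c / Real.exp 1 :=
    ENNReal.toReal_le_of_le_ofReal (by positivity) hPu1
  have ha0 : c ≤ (P 0).toReal := by
    rwa [← ENNReal.ofReal_le_iff_le_toReal (hfin 0)]
  have hb : ∀ v, (P v).toReal ≤ C := fun v => ENNReal.toReal_le_of_le_ofReal hC.le (hP v)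
  have ha : 0 < (P 0).toReal := lt_of_lt_of_le hc ha0
  rw [← ENNReal.ofReal_toReal (hfin u)]
  apply ENNReal.ofReal_le_ofReal
  by_cases hule : u ≤ u1
  · have h1 : 1 ≤ Real.exp 1 * Real.exp (-u / L) := by
      rw [← Real.exp_add]
      apply Real.one_le_exp
      have : u / L ≤ 1 := by
        rw [div_le_one hLpos]; linarith
      have h3 : -u / L = -(u / L) := by ring
      rw [h3]; linarith
    calc (P u).toReal ≤ C * 1 := by rw [mul_one]; exact hb u
      _ ≤ C * (Real.exp 1 * Real.exp (-u / L)) := by gcongr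
      _ = _ := by ring
  · push Not at hule
    have hu0 : 0 < u := lt_trans hu1 hule
    rcases (ENNReal.toReal_nonneg (a := P u)).eq_or_lt with hz | hpos
    · rw [← hz]; positivity
    have ht0 : 0 < u1 / u := by positivity
    have ht1 : u1 / u < 1 := by rw [div_lt_one hu0]; exact hule
    have hlc' := real_lc hfin hlc 0 u (u1 / u) ht0 ht1
    have hpt : (1 - u1 / u) * 0 + u1 / u * u = u1 := by field_simp; ring
    rw [hpt] at hlc'
    have hlog := log_form ha hpos hlc'
    have hmpos : 0 < (P u1).toReal :=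
      lt_of_lt_of_le (mul_pos (Real.rpow_pos_of_pos ha _) (Real.rpow_pos_of_pos hpos _)) hlc'
    have hlm : Real.log (P u1).toReal ≤ Real.log (P 0).toReal - 1 := by
      have h1 : (P u1).toReal ≤ (P 0).toReal / Real.exp 1 :=
        le_trans hm1 (by gcongr)
      have h2 := Real.log_le_log hmpos h1
      rwa [Real.log_div ha.ne' he.ne', Real.log_exp] at h2
    have hkey : Real.log (P u).toReal ≤ Real.log (P 0).toReal - u / u1 := by
      have h3 : u1 / u * Real.log (P u).toReal ≤ u1 / u * (Real.log (P 0).toReal - u / u1) := by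
        have : u1 / u * (u / u1) = 1 := by field_simp
        nlinarith
      exact le_of_mul_le_mul_left h3 ht0
    have hlC : Real.log (P 0).toReal ≤ Real.log C := Real.log_le_log ha (hb 0)
    have hfin2 : Real.log (P u).toReal ≤ Real.log C + 1 + -u / L := by
      have h4 : u / L ≤ u / u1 := by gcongr
      have h5 : -u / L = -(u / L) := by ring
      rw [h5]; linarith
    have h6 : C * Real.exp 1 * Real.exp (-u / L) = Real.exp (Real.log C + 1 + -u / L) := by
      rw [Real.exp_add, Real.exp_add, Real.exp_log hC]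
    rw [h6, ← Real.exp_log hpos]
    exact Real.exp_le_exp.mpr hfin2

/-- **EXPD**. -/
theorem expd : S_EXPD := by
  intro c C hc hC
  have he := Real.exp_pos 1
  set L := 2 * Real.exp 1 / c with hL
  have hLpos : 0 < L := by positivity
  refine ⟨1 + C * Real.exp 1 + L, by nlinarith [mul_pos hC he], ?_⟩
  intro P _ hlc h0 hP hm u
  set K := 1 + C * Real.exp 1 + L with hK
  have hCe : 0 < C * Real.exp 1 := mul_pos hC he
  have hKpos : 0 < K := by rw [hK]; linarith
  have main : ∀ u, P u ≤ ENNReal.ofReal (C * Real.exp 1 * Real.exp (-|u| / L)) := by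
    intro u
    rcases le_total 0 u with hu | hu
    · rw [abs_of_nonneg hu]
      exact expd_right hc hC P hlc h0 hP hm u hu
    · rw [abs_of_nonpos hu]
      have := expd_right hc hC (fun v => P (-v)) (fun x y t ht0 ht1 => by
        have h := hlc (-x) (-y) t ht0 ht1
        have h1 : (1 - t) * -x + t * -y = -((1 - t) * x + t * y) := by ring
        rw [h1] at h
        exact h) (by simpa using h0) (fun v => hP (-v))
        (by rw [lintegral_neg_eq_self (μ := volume) P]; exact hm) (-u) (by linarith)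
      simpa using this
  refine (main u).trans (ENNReal.ofReal_le_ofReal ?_)
  have h1 : -|u| / L ≤ -|u| / K := by
    rw [neg_div, neg_div, neg_le_neg_iff]
    exact div_le_div_of_nonneg_left (abs_nonneg u) hLpos (by rw [hK]; linarith)
  exact mul_le_mul (by rw [hK]; linarith) (Real.exp_le_exp.mpr h1) (Real.exp_pos _).le hKpos.le

lemma psi_right {c C r C0 : ℝ} (hc : 0 < c) (hC : 0 < C) (hr : 0 < r) (hC0 : 1 ≤ C0)
    (F : ℝ → ℝ) (ψ : ℝ → ℝ≥0∞) (hF : ∀ s, 0 < F s) (hFb : ∀ s, F s ≤ C0) (hF0 : 1 / C0 ≤ F 0)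
    (hlc : ∀ x y t : ℝ, 0 < t → t < 1 → ψ x ^ (1 - t) * ψ y ^ t ≤ ψ ((1 - t) * x + t * y))
    (hlow : ∀ u, |u| ≤ r → ENNReal.ofReal c ≤ ENNReal.ofReal (F u) * ψ u)
    (hup : ∀ u, ENNReal.ofReal (F u) * ψ u ≤ ENNReal.ofReal C) (u : ℝ) (hu : 0 ≤ u) :
    ψ u ≤ ENNReal.ofReal (C * C0 *
      Real.exp (u * (max 0 (Real.log (C * C0) - Real.log (c / C0)) / r))) := by
  have hC0p : 0 < C0 := by linarith
  have hfin : ∀ u, ψ u ≠ ∞ := by
    intro u hu
    have := hup u
    rw [hu, ENNReal.mul_top (by simpa using hF u)] at this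
    exact ENNReal.ofReal_ne_top (top_le_iff.mp this)
  have hupR : ∀ u, F u * (ψ u).toReal ≤ C := by
    intro u
    have := ENNReal.toReal_le_of_le_ofReal hC.le (hup u)
    rwa [ENNReal.toReal_mul, ENNReal.toReal_ofReal (hF u).le] at this
  have hlowR : ∀ u, |u| ≤ r → c ≤ F u * (ψ u).toReal := by
    intro u hu
    have h1 : ENNReal.ofReal (F u) * ψ u ≠ ∞ := ENNReal.mul_ne_top ENNReal.ofReal_ne_top (hfin u)
    have := (ENNReal.ofReal_le_iff_le_toReal h1).mp (hlow u hu)
    rwa [ENNReal.toReal_mul, ENNReal.toReal_ofReal (hF u).le] at this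
  have hq0 : (ψ 0).toReal ≤ C * C0 := by
    have h1 := hupR 0
    have h2 : 1 / C0 * (ψ 0).toReal ≤ C :=
      le_trans (mul_le_mul_of_nonneg_right hF0 ENNReal.toReal_nonneg) h1
    rw [one_div, inv_mul_le_iff₀ hC0p] at h2
    linarith
  have hq0p : 0 < (ψ 0).toReal := by
    have h1 := hlowR 0 (by simpa using hr.le)
    by_contra h
    have : (ψ 0).toReal = 0 := le_antisymm (not_lt.mp h) ENNReal.toReal_nonneg
    rw [this, mul_zero] at h1
    linarith
  have hqr : c / C0 ≤ (ψ (-r)).toReal := by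
    have h1 := hlowR (-r) (by rw [abs_neg, abs_of_pos hr])
    have h2 : F (-r) * (ψ (-r)).toReal ≤ C0 * (ψ (-r)).toReal :=
      mul_le_mul_of_nonneg_right (hFb _) ENNReal.toReal_nonneg
    rw [div_le_iff₀ hC0p]
    linarith
  have hcC0 : 0 < c / C0 := by positivity
  have hCC0 : 0 < C * C0 := by positivity
  have hqrp : 0 < (ψ (-r)).toReal := lt_of_lt_of_le hcC0 hqr
  set lB := max 0 (Real.log (C * C0) - Real.log (c / C0)) with hlB
  have hlB0 : 0 ≤ lB := le_max_left _ _
  rw [← ENNReal.ofReal_toReal (hfin u)]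
  apply ENNReal.ofReal_le_ofReal
  rcases hu.eq_or_lt with h0 | hupos
  · rw [← h0]; simpa using hq0
  rcases (ENNReal.toReal_nonneg (a := ψ u)).eq_or_lt with hz | hpos
  · rw [← hz]; positivity
  have hur : 0 < u + r := by linarith
  have ht0 : 0 < r / (u + r) := by positivity
  have ht1 : r / (u + r) < 1 := by rw [div_lt_one hur]; linarith
  have hlc' := real_lc hfin hlc (-r) u (r / (u + r)) ht0 ht1
  have hpt : (1 - r / (u + r)) * -r + r / (u + r) * u = 0 := by field_simp; ring
  rw [hpt] at hlc'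
  have hlog := log_form hqrp hpos hlc'
  have h1 : Real.log (ψ 0).toReal ≤ Real.log (C * C0) := Real.log_le_log hq0p hq0
  have h2 : Real.log (c / C0) ≤ Real.log (ψ (-r)).toReal := Real.log_le_log hcC0 hqr
  have h3 : Real.log (C * C0) - Real.log (c / C0) ≤ lB := le_max_right _ _
  have hkey : Real.log (ψ u).toReal ≤ Real.log (C * C0) + u * (lB / r) := by
    have h4 : r / (u + r) * Real.log (ψ u).toReal ≤
        r / (u + r) * (Real.log (C * C0) + u * (lB / r)) := by
      have h5 : r / (u + r) * (u * (lB / r)) = (1 - r / (u + r)) * lB := by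
        field_simp; ring
      have h6 : 0 ≤ 1 - r / (u + r) := by linarith
      rw [mul_add, h5]
      nlinarith [mul_le_mul_of_nonneg_left h2 h6, mul_le_mul_of_nonneg_left h3 h6]
    exact le_of_mul_le_mul_left h4 ht0
  rw [← Real.exp_log hpos, ← Real.exp_log hCC0, ← Real.exp_add]
  exact Real.exp_le_exp.mpr hkey

/-- **PSI**. -/
theorem psi : S_PSI := by
  intro c C r C0 hc hC hr hC0
  have hC0p : 0 < C0 := by linarith
  set lB := max 0 (Real.log (C * C0) - Real.log (c / C0)) with hlB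
  have hlB0 : 0 ≤ lB := le_max_left _ _
  have hCC0 : 0 < C * C0 := by positivity
  have hlr : 0 ≤ lB / r := by positivity
  refine ⟨1 + C * C0 + lB / r, by linarith, ?_⟩
  intro F ψ hF hFb hF0 hlc hlow hup u
  set K := 1 + C * C0 + lB / r with hK
  have hKpos : 0 < K := by rw [hK]; linarith
  have main : ∀ u, ψ u ≤ ENNReal.ofReal (C * C0 * Real.exp (|u| * (lB / r))) := by
    intro u
    rcases le_total 0 u with hu | hu
    · rw [abs_of_nonneg hu]
      exact psi_right hc hC hr hC0 F ψ hF hFb hF0 hlc hlow hup u hu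
    · rw [abs_of_nonpos hu]
      have := psi_right hc hC hr hC0 (fun v => F (-v)) (fun v => ψ (-v)) (fun v => hF (-v))
        (fun v => hFb (-v)) (by simpa using hF0) (fun x y t ht0 ht1 => by
        have h := hlc (-x) (-y) t ht0 ht1
        have h1 : (1 - t) * -x + t * -y = -((1 - t) * x + t * y) := by ring
        rw [h1] at h
        exact h) (fun v hv => hlow (-v) (by rwa [abs_neg])) (fun v => hup (-v)) (-u) (by linarith)
      simpa using this
  refine (main u).trans (ENNReal.ofReal_le_ofReal ?_)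
  have h1 : |u| * (lB / r) ≤ K * |u| := by
    rw [mul_comm]
    exact mul_le_mul_of_nonneg_right (by rw [hK]; linarith) (abs_nonneg u)
  exact mul_le_mul (by rw [hK]; linarith) (Real.exp_le_exp.mpr h1) (Real.exp_pos _).le hKpos.le

end Pool.Agent.Y950.RG
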